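import Mathlib
import Pool.Agent.Q82.Res7c

set_option autoImplicit false

/-!
# The expected resolution shape fails for a last coefficient of degree two

Over every field of characteristic zero, the arrangement of the seven planes
`z (x - z) (x + z) (y - z) (y + z) (x + y - z) (x + y + z) = 0` in `K^3` carries four logarithmic
derivations satisfying all the hypotheses, while its module of logarithmic derivations has no
homogeneous minimal free resolution of the expected shape.
-/

namespace Pool.Agent.Results.MP_ac8f1a_ag.NoShape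

open MvPolynomial

/-- The linear form `∑ j, a j * x_j`. -/
noncomputable def linearForm {K : Type} [Field K] {l : ℕ} (a : Fin l → K) :
    MvPolynomial (Fin l) K :=
  ∑ j, MvPolynomial.C (a j) * MvPolynomial.X j

/-- The hyperplane `ker (∑ j, a j * x_j)` in `K^l`. -/
def hyperplane {K : Type} [Field K] {l : ℕ} (a : Fin l → K) : Submodule K (Fin l → K) :=
  LinearMap.ker ((LinearMap.lsum K (fun _ : Fin l => K) K) (fun j => a j • LinearMap.id))

/-- `A` is the family of coefficient vectors of a central arrangement of `n` distinct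
hyperplanes in `K^l`. -/
def IsArrangement {K : Type} [Field K] {l n : ℕ} (A : Fin n → Fin l → K) : Prop :=
  (∀ i, A i ≠ 0) ∧ Function.Injective fun i => hyperplane (A i)

/-- The defining polynomial `Q`, the product of the defining linear forms. -/
noncomputable def definingPoly {K : Type} [Field K] {l n : ℕ} (A : Fin n → Fin l → K) :
    MvPolynomial (Fin l) K :=
  ∏ i, linearForm (A i)

/-- The derivations of the polynomial ring `S = K[x_1, ..., x_l]`. -/
abbrev Der (K : Type) [Field K] (l : ℕ) : Type :=
  Derivation K (MvPolynomial (Fin l) K) (MvPolynomial (Fin l) K)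

/-- The module `D(A)` of logarithmic derivations: all `K`-linear derivations `θ` of the
polynomial ring `S` with `θ(α_i) ∈ α_i S` for each defining form `α_i`. -/
noncomputable def logDer {K : Type} [Field K] {l n : ℕ} (A : Fin n → Fin l → K) :
    Submodule (MvPolynomial (Fin l) K) (Der K l) where
  carrier := {θ | ∀ i, linearForm (A i) ∣ θ (linearForm (A i))}
  add_mem' := fun {θ η} hθ hη i => by
    rw [Derivation.add_apply]
    exact dvd_add (hθ i) (hη i)
  zero_mem' := fun i => by rw [Derivation.zero_apply]; exact dvd_zero _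
  smul_mem' := fun r θ hθ i => by
    rw [Derivation.smul_apply, smul_eq_mul]
    exact dvd_mul_of_dvd_right (hθ i) r

/-- The derivation `θ` is homogeneous of degree `p`: all `θ(x_j)` lie in `S_p`. -/
def IsHomDer {K : Type} [Field K] {l : ℕ} (θ : Der K l) (p : ℕ) : Prop :=
  ∀ j, (θ (X j)).IsHomogeneous p

/-- `S_{>0}`: the homogeneous polynomials of positive degree (zero belongs to every
graded piece). -/
def IsPos {K : Type} [Field K] {l : ℕ} (h : MvPolynomial (Fin l) K) : Prop :=
  ∃ k, 0 < k ∧ h.IsHomogeneous k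

/-- The polynomials `g_1, ..., g_{l+1}` defined by `(-1)^i det M_i = g_i Q`, where `M` is the
`(l+1) × l` matrix with entries `θ_i(x_j)` and `M_i` is `M` without row `i`
(the rows are indexed here from `0` to `l`, which explains the exponent `i + 1`). -/
def IsCofactors {K : Type} [Field K] {l n : ℕ} (A : Fin n → Fin l → K)
    (θ : Fin (l + 1) → Der K l) (g : Fin (l + 1) → MvPolynomial (Fin l) K) : Prop :=
  ∀ i : Fin (l + 1), (-1) ^ ((i : ℕ) + 1) *
    (Matrix.of fun (r j : Fin l) => θ (i.succAbove r) (X j)).det = g i * definingPoly A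

/-- `0 → S^q → S^p → D(A) → 0` is a free resolution of length at most one of the module `D(A)`:
the second map sends the `i`-th basis vector to `η i`, the first one sends the `j`-th basis
vector to the row `R j`. -/
def IsResolution {K : Type} [Field K] {l n : ℕ} (A : Fin n → Fin l → K) {p q : ℕ}
    (η : Fin p → Der K l) (R : Fin q → Fin p → MvPolynomial (Fin l) K) : Prop :=
  Submodule.span (MvPolynomial (Fin l) K) (Set.range η) = logDer A ∧
  (∀ u : Fin p → MvPolynomial (Fin l) K, ∑ i, u i • η i = 0 ↔
    ∃ c : Fin q → MvPolynomial (Fin l) K, ∀ i, u i = ∑ j, c j * R j i) ∧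
  ∀ c : Fin q → MvPolynomial (Fin l) K, (∀ i, ∑ j, c j * R j i = 0) → c = 0

/-- The projective dimension of `D(A)` over `S` is one: there is a free resolution of length
one (by finitely generated modules), and `D(A)` is not projective. -/
def HasPdOne {K : Type} [Field K] {l n : ℕ} (A : Fin n → Fin l → K) : Prop :=
  (∃ (p q : ℕ) (η : Fin p → Der K l) (R : Fin q → Fin p → MvPolynomial (Fin l) K),
    IsResolution A η R) ∧
  ¬ Module.Projective (MvPolynomial (Fin l) K) (logDer A)

/-- The expected shape: `D(A)` has a minimal homogeneous generating set of size `l + k`, with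
degrees `d_0, ..., d_{l + k - 1}`, and a graded minimal free resolution
`0 → ⨁_{j < k} S[-d_{l + j} - 1] → ⨁_{i < l + k} S[-d_i] → D(A) → 0`. The entry `R j i` of the
first map vanishes or is homogeneous of degree `d_{l + j} + 1 - d_i`, and the resolution is
minimal if and only if no entry `R j i` has a nonzero constant term. -/
def HasShape {K : Type} [Field K] {l n : ℕ} (A : Fin n → Fin l → K) : Prop :=
  ∃ (k : ℕ) (d : Fin (l + k) → ℕ) (η : Fin (l + k) → Der K l)
    (R : Fin k → Fin (l + k) → MvPolynomial (Fin l) K),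
    (∀ i, IsHomDer (η i) (d i)) ∧ IsResolution A η R ∧
    (∀ j i, MvPolynomial.constantCoeff (R j i) = 0) ∧
    ∀ j i, R j i = 0 ∨ ∃ m, d i + m = d (Fin.natAdd l j) + 1 ∧ (R j i).IsHomogeneous m

section

open Pool.Agent.Q82 Pool.Agent.Q82.Res7

variable {K : Type} [Field K]

/-- some `2 × 2` minor of the two rows is nonzero -/
def someMinor (u v : Fin 3 → ℤ) : Prop := ∃ j k : Fin 3, u j * v k - u k * v j ≠ 0

instance (u v : Fin 3 → ℤ) : Decidable (someMinor u v) := by unfold someMinor; infer_instance

lemma mem_hyperplane {l : ℕ} (a : Fin l → K) (x : Fin l → K) :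
    x ∈ hyperplane a ↔ ∑ j, a j * x j = 0 := by
  unfold hyperplane
  rw [LinearMap.mem_ker]
  simp [LinearMap.lsum_apply]

lemma hyperplane_ne [CharZero K] (u v : Fin 3 → ℤ) (h : someMinor u v) :
    hyperplane (fun j => (u j : K)) ≠ hyperplane (fun j => (v j : K)) := by
  obtain ⟨j, k, hjk⟩ := h
  intro heq
  have hne : j ≠ k := by
    rintro rfl
    exact hjk (sub_self _)
  have h1 : (Pi.single j (u k : K) - Pi.single k (u j : K) : Fin 3 → K) ∈
      hyperplane (fun j => (u j : K)) := by
    rw [mem_hyperplane]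
    simp only [Pi.sub_apply, mul_sub, Finset.sum_sub_distrib, Pi.single_apply, mul_ite, mul_zero,
      Finset.sum_ite_eq', Finset.mem_univ, if_true]
    ring
  rw [heq, mem_hyperplane] at h1
  simp only [Pi.sub_apply, mul_sub, Finset.sum_sub_distrib, Pi.single_apply, mul_ite, mul_zero,
      Finset.sum_ite_eq', Finset.mem_univ, if_true] at h1
  apply hjk
  have h3 : ((u j * v k - u k * v j : ℤ) : K) = 0 := by
    push_cast
    linear_combination -h1
  exact_mod_cast h3

lemma MM_minor : ∀ i j : Fin 7, i ≠ j → someMinor (MM i) (MM j) := by decide +kernel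

lemma isArrangement [CharZero K] : IsArrangement (AA K) := by
  constructor
  · intro i h0
    obtain ⟨i', hi'⟩ := exists_ne i
    obtain ⟨j, k, hjk⟩ := MM_minor i i' hi'.symm
    have h1 : ∀ j, MM i j = 0 := by
      intro j
      have := congrFun h0 j
      have h2 : ((MM i j : ℤ) : K) = 0 := this
      exact_mod_cast h2
    rw [h1, h1] at hjk
    simp at hjk
  · intro i j hij
    by_contra hne
    exact hyperplane_ne (MM i) (MM j) (MM_minor i j hne) hij

/-- the standard generators as derivations -/
noncomputable def st (K : Type) [Field K] (i : Fin 4) : Der K 3 := derVec.symm (th K i)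

/-- the four derivations of the example -/
noncomputable def tt (K : Type) [Field K] (i : Fin 4) : Der K 3 := derVec.symm (th' K i)

lemma derVec_st (i : Fin 4) : derVec (st K i) = th K i := by
  rw [st, LinearEquiv.apply_symm_apply]

lemma derVec_tt (i : Fin 4) : derVec (tt K i) = th' K i := by
  rw [tt, LinearEquiv.apply_symm_apply]

lemma st_mem (i : Fin 4) : st K i ∈ logDer (AA K) := by
  apply mem_logD_iff.2
  rw [derVec_st]
  exact th_mem i

lemma tt_mem (i : Fin 4) : tt K i ∈ logDer (AA K) := by
  apply mem_logD_iff.2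
  rw [derVec_tt]
  exact th'_mem i

lemma tt_hom (i : Fin 4) : IsHomDer (tt K i) (ee i) := by
  intro j
  have h := th'_hom (K := K) i j
  rw [← derVec_tt] at h
  exact h

lemma tt_cof : IsCofactors (AA K) (tt K) (gg K) := by
  intro i
  have h := cof (K := K) i
  have e : (fun r : Fin 3 => th' K (i.succAbove r)) = fun r j => tt K (i.succAbove r) (X j) := by
    funext r
    rw [← derVec_tt]
    rfl
  rw [e] at h
  exact h

variable [CharZero K]

lemma mem_range {θ : Der K 3} (h : θ ∈ logDer (AA K)) :
    ∃ f : Fin 4 → MvPolynomial (Fin 3) K, θ = ∑ i, f i • st K i := by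
  obtain ⟨f, hf⟩ := exists_rep (mem_logD_iff.1 h)
  refine ⟨f, ?_⟩
  apply (derVec (K := K) (l := 3)).injective
  rw [hf, map_sum]
  exact Finset.sum_congr rfl fun i _ => by rw [map_smul, derVec_st]

lemma resolution : IsResolution (AA K) (st K) ![rho K] := by
  refine ⟨?_, ?_, ?_⟩
  · apply le_antisymm
    · rw [Submodule.span_le]
      rintro _ ⟨i, rfl⟩
      exact st_mem i
    · intro θ hθ
      obtain ⟨f, rfl⟩ := mem_range hθ
      exact sum_mem fun i _ => Submodule.smul_mem _ _ (Submodule.subset_span ⟨i, rfl⟩)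
  · intro u
    rw [rel_iff]
    simp only [derVec_st]
    constructor
    · intro h
      obtain ⟨c, hc⟩ := rel_std h
      exact ⟨![c], fun i => by simpa using hc i⟩
    · rintro ⟨c, hc⟩
      have e : (fun i => u i • th K i) = fun i => c 0 • (rho K i • th K i) := by
        funext i
        rw [hc i, smul_smul]
        simp
      calc ∑ i, u i • th K i = ∑ i, c 0 • (rho K i • th K i) := by rw [e]
        _ = c 0 • ∑ i, rho K i • th K i := by rw [Finset.smul_sum]
        _ = 0 := by rw [rel_rho, smul_zero]
  · intro c hc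
    have h1 := hc 1
    simp only [Fin.sum_univ_one, Matrix.cons_val_zero] at h1
    have h2 : c 0 * qc K = 0 := h1
    funext j
    have hj : j = 0 := Subsingleton.elim _ _
    rw [hj]
    rcases mul_eq_zero.1 h2 with h | h
    · exact h
    · exact absurd h qc_ne

lemma not_projective : ¬ Module.Projective (MvPolynomial (Fin 3) K) (logDer (AA K)) := by
  intro hP
  -- the surjection from the free module
  let Φ : (Fin 4 → MvPolynomial (Fin 3) K) →ₗ[MvPolynomial (Fin 3) K] logDer (AA K) :=
    Fintype.linearCombination (MvPolynomial (Fin 3) K)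
      (fun i => (⟨st K i, st_mem i⟩ : logDer (AA K)))
  have hΦ : ∀ u, ((Φ u : logDer (AA K)) : Der K 3) = ∑ i, u i • st K i := by
    intro u
    simp [Φ, Fintype.linearCombination_apply]
  have hsurj : Function.Surjective Φ := by
    rintro ⟨θ, hθ⟩
    obtain ⟨f, hf⟩ := mem_range hθ
    exact ⟨f, Subtype.ext (by rw [hΦ]; exact hf.symm)⟩
  obtain ⟨s, hs⟩ := Module.projective_lifting_property Φ LinearMap.id hsurj
  -- the kernel
  have hker : ∀ u, Φ u = 0 → ∃ c, ∀ i, u i = c * rho K i := by
    intro u hu
    have h1 : ∑ i, u i • st K i = 0 := by rw [← hΦ, hu]; rfl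
    rw [rel_iff] at h1
    simp only [derVec_st] at h1
    exact rel_std h1
  have hrho : Φ (rho K) = 0 := by
    apply Subtype.ext
    rw [hΦ]
    show _ = (0 : Der K 3)
    rw [rel_iff]
    simp only [derVec_st]
    exact rel_rho
  have hproj : ∀ a : Fin 4, ∃ c, ∀ i, (Pi.single a (1 : MvPolynomial (Fin 3) K) -
      s (Φ (Pi.single a 1)) : Fin 4 → MvPolynomial (Fin 3) K) i = c * rho K i := by
    intro a
    apply hker
    rw [map_sub]
    have := LinearMap.congr_fun hs (Φ (Pi.single a 1))
    simp only [LinearMap.comp_apply, LinearMap.id_apply] at this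
    rw [this, sub_self]
  choose c hc using hproj
  have hdec : rho K = ∑ a, rho K a • (Pi.single a (1 : MvPolynomial (Fin 3) K) :
      Fin 4 → MvPolynomial (Fin 3) K) := by
    funext i
    rw [Finset.sum_apply, Finset.sum_eq_single i]
    · simp
    · intro b _ hb
      rw [Pi.smul_apply, Pi.single_eq_of_ne hb.symm, smul_zero]
    · simp
  have h1 : ∑ a, rho K a • (s (Φ (Pi.single a 1))) = 0 := by
    have : ∑ a, rho K a • (s (Φ (Pi.single a 1))) = s (Φ (rho K)) := by
      conv_rhs => rw [hdec, map_sum, map_sum]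
      exact Finset.sum_congr rfl fun a _ => by rw [map_smul, map_smul]
    rw [this, hrho, map_zero]
  have h2 : rho K 1 = (∑ a, rho K a * c a) * rho K 1 := by
    have e1 : rho K 1 = ∑ a, rho K a * (Pi.single a (1 : MvPolynomial (Fin 3) K) :
        Fin 4 → MvPolynomial (Fin 3) K) 1 := by
      conv_lhs => rw [hdec, Finset.sum_apply]
      exact Finset.sum_congr rfl fun a _ => by rw [Pi.smul_apply, smul_eq_mul]
    have e2 : ∑ a, rho K a * (s (Φ (Pi.single a 1))) 1 = 0 := by
      have := congrFun h1 1
      rw [Finset.sum_apply] at this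
      exact this
    calc rho K 1 = ∑ a, rho K a * (Pi.single a (1 : MvPolynomial (Fin 3) K) :
            Fin 4 → MvPolynomial (Fin 3) K) 1 -
            ∑ a, rho K a * (s (Φ (Pi.single a 1))) 1 := by rw [e2, sub_zero]; exact e1
      _ = ∑ a, rho K a * (c a * rho K 1) := by
          rw [← Finset.sum_sub_distrib]
          refine Finset.sum_congr rfl fun a _ => ?_
          rw [← hc a 1, Pi.sub_apply]
          ring
      _ = (∑ a, rho K a * c a) * rho K 1 := by
          rw [Finset.sum_mul]
          exact Finset.sum_congr rfl fun a _ => by ring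
  have h3 : rho K 1 ≠ 0 := qc_ne
  have h4 : ∑ a, rho K a * c a = 1 := by
    apply mul_right_cancel₀ h3
    rw [one_mul, ← h2]
  have h5 := congrArg constantCoeff h4
  rw [map_sum, map_one, Finset.sum_eq_zero] at h5
  · exact zero_ne_one h5
  · intro a _
    rw [map_mul, rho_const, zero_mul]

lemma not_shape : ¬ HasShape (AA K) := by
  rintro ⟨k, d, η, R, hhom, ⟨hspan, hrel, hinj⟩, hmin, hdeg⟩
  have hmem : ∀ i, η i ∈ logDer (AA K) := by
    intro i
    rw [← hspan]
    exact Submodule.subset_span ⟨i, rfl⟩
  refine no_shape (K := K) d (fun i => derVec (η i)) R (fun i j => hhom i j)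
    (fun i => mem_logD_iff.1 (hmem i)) ?_ ?_ hinj hmin hdeg
  · intro w hw
    have h1 : derVec.symm w ∈ logDer (AA K) := by
      apply mem_logD_iff.2
      rw [LinearEquiv.apply_symm_apply]
      exact hw
    rw [← hspan, Submodule.mem_span_range_iff_exists_fun] at h1
    obtain ⟨u, hu⟩ := h1
    refine ⟨u, ?_⟩
    have h2 := congrArg derVec hu
    rw [LinearEquiv.apply_symm_apply, map_sum] at h2
    rw [← h2]
    exact Finset.sum_congr rfl fun i _ => by rw [map_smul]
  · intro u
    rw [← hrel u, rel_iff]

end

/-- **Negative answer to Q1.** Over every field of characteristic zero there is a central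
arrangement of seven planes in `K^3` with homogeneous logarithmic derivations `θ_1, ..., θ_4`
satisfying all the hypotheses (H) (all of `g_1, ..., g_4` are nonzero and homogeneous of positive
degree; here `g_4` has degree two), such that `D(A)` has no homogeneous minimal free resolution of
the expected shape. -/
theorem result (K : Type) [Field K] [CharZero K] :
    ∃ (A : Fin 7 → Fin 3 → K) (θ : Fin 4 → Der K 3) (e : Fin 4 → ℕ)
      (g : Fin 4 → MvPolynomial (Fin 3) K),
      IsArrangement A ∧ (∀ i, θ i ∈ logDer A) ∧ (∀ i, IsHomDer (θ i) (e i)) ∧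
      IsCofactors A θ g ∧
      g (Fin.last 3) ≠ 0 ∧ (g (Fin.last 3)).IsHomogeneous 2 ∧
      (∀ i : Fin 3, g i.castSucc ≠ 0 ∧ IsPos (g i.castSucc)) ∧
      (¬ ∃ h, IsPos h ∧ ∀ i : Fin 3, g i.castSucc ∈ Ideal.span {h, g (Fin.last 3)}) ∧
      HasPdOne A ∧
      ¬ HasShape A := by
  refine ⟨Pool.Agent.Q82.Res7.AA K, tt K, Pool.Agent.Q82.Res7.ee, Pool.Agent.Q82.Res7.gg K,
    isArrangement, tt_mem, tt_hom, tt_cof, ?_, ?_, ?_, ?_, ⟨⟨4, 1, st K, _, resolution⟩,
      not_projective⟩, not_shape⟩
  · exact Pool.Agent.Q82.Res7.qa_ne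
  · exact Pool.Agent.Q82.Res7.qa_hom
  · intro i
    fin_cases i
    · refine ⟨?_, 5, by norm_num, ?_⟩
      · show -(X 2 ^ 3 * Pool.Agent.Q82.Res7.qa K) ≠ 0
        exact neg_ne_zero.2 (mul_ne_zero (pow_ne_zero _ (X_ne_zero _)) Pool.Agent.Q82.Res7.qa_ne)
      · show (-(X 2 ^ 3 * Pool.Agent.Q82.Res7.qa K)).IsHomogeneous 5
        exact ((isHomogeneous_X_pow _ _).mul Pool.Agent.Q82.Res7.qa_hom).neg
    · exact ⟨Pool.Agent.Q82.Res7.qc_ne, 2, by norm_num, Pool.Agent.Q82.Res7.qc_hom⟩
    · exact ⟨neg_ne_zero.2 Pool.Agent.Q82.Res7.qb_ne, 2, by norm_num,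
        Pool.Agent.Q82.Res7.qb_hom.neg⟩
  · exact Pool.Agent.Q82.Res7.noCommon_gg

end Pool.Agent.Results.MP_ac8f1a_ag.NoShape
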